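import Pool.Agent.MP_ea150c_mp.H49.SpecF

/-! Normal ordering and the spanning set of a frame. -/

namespace Pool.Agent.MP_ea150c_mp.H29

open Pool.Agent.MP_ea150c_mp.H49 Pool.Agent.MP_ea150c_mp.H49.FrameData

noncomputable section

theorem list_pow_add {M κ : Type} [Monoid M] (f : κ → M) (hf : ∀ i l, Commute (f i) (f l))
    (n n' : κ → ℕ) (L : List κ) :
    (L.map fun i => f i ^ (n + n') i).prod =
      (L.map fun i => f i ^ n i).prod * (L.map fun i => f i ^ n' i).prod := by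
  induction L with
  | nil => simp
  | cons a L ih =>
    have hc : Commute (f a ^ n' a) (L.map fun i => f i ^ n i).prod := by
      apply Commute.list_prod_right
      intro x hx
      obtain ⟨i, -, rfl⟩ := List.mem_map.1 hx
      exact (hf a i).pow_pow _ _
    rw [List.map_cons, List.map_cons, List.map_cons, List.prod_cons, List.prod_cons, List.prod_cons,
      ih, Pi.add_apply, pow_add, mul_assoc, mul_assoc, ← mul_assoc (f a ^ n' a), hc.eq, mul_assoc]

variable {p : ℕ} [Fact p.Prime] {A B Γ I ι : Type} {σ : I → Type}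
  [CommRing A] [Algebra ℤ_[p] A] [AddCommGroup B] [Module A B] [Module ℤ_[p] B]
  [IsScalarTower ℤ_[p] A B] [AddCommGroup Γ] [LinearOrder I] [Fintype I] [Fintype ι]
  [DecidableEq ι] [∀ j, Fintype (σ j)] [∀ j, DecidableEq (σ j)]
  {F : FrameData p A B Γ I ι σ}

set_option linter.unusedSectionVars false

theorem mOp_apply (b : B) (r : A) : mOp ℤ_[p] A b r = r • b := rfl

theorem mulL_apply (a : A) (b : B) : mulL ℤ_[p] B a b = a • b := rfl

theorem mOp_zero : mOp ℤ_[p] A (0 : B) = 0 := by ext r; simp [mOp_apply]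

theorem mOp_add (b b' : B) : mOp ℤ_[p] A (b + b') = mOp ℤ_[p] A b + mOp ℤ_[p] A b' := by
  ext r; simp [mOp_apply]

theorem mOp_neg (b : B) : mOp ℤ_[p] A (-b) = -mOp ℤ_[p] A b := by
  ext r; simp [mOp_apply]

theorem mOp_smul (c : ℤ_[p]) (b : B) : mOp ℤ_[p] A (c • b) = c • mOp ℤ_[p] A b := by
  ext r
  rw [LinearMap.smul_apply, mOp_apply, mOp_apply]
  exact smul_comm _ _ _

theorem mulL_mOp (a : A) (b : B) : mulL ℤ_[p] B a ∘ₗ mOp ℤ_[p] A b = mOp ℤ_[p] A (a • b) := by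
  ext r
  rw [LinearMap.comp_apply, mOp_apply, mOp_apply, mulL_apply]
  exact smul_comm _ _ _

theorem word_mem {J : Finset I} {w : Γ} {l m : ℕ} {P : A →ₗ[ℤ_[p]] B} (h : F.Word J w l P)
    (hl : l ≤ m) : P ∈ F.L J w m := Submodule.subset_span ⟨l, hl, h⟩

theorem word_mono (hL : F.AxL) {J J' : Finset I} (hJ : J ⊆ J') {w : Γ} {l : ℕ}
    {P : A →ₗ[ℤ_[p]] B} (h : F.Word J w l P) : F.Word J' w l P := by
  induction h with
  | base j i w l b hj hb => exact Word.base j i w l b (hJ hj) (hL.monoL _ _ _ _ hJ hb)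
  | step j i w l P hj _ ih => exact Word.step j i w l P (hJ hj) ih

theorem L_mono (hL : F.AxL) {J J' : Finset I} {w : Γ} {m m' : ℕ} (hJ : J ⊆ J') (hm : m ≤ m') :
    F.L J w m ≤ F.L J' w m' :=
  Submodule.span_mono fun _ ⟨l, hl, h⟩ => ⟨l, hl.trans hm, word_mono hL hJ h⟩

theorem L_zero (J : Finset I) (w : Γ) : F.L J w 0 = ⊥ := by
  rw [FrameData.L, Submodule.span_eq_bot]
  rintro P ⟨l, hl, h⟩
  cases h <;> omega

theorem word_apply (hL : F.AxL) (hC : F.AxC) {J J' : Finset I} (hJ : J ⊆ J') {w w' : Γ} {l : ℕ}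
    {P : A →ₗ[ℤ_[p]] B} (h : F.Word J w l P) {r : A} (hr : r ∈ F.Ar J' w') :
    P r ∈ F.Bl J' (w + w') l := by
  induction h with
  | base j i w l b hj hb =>
    have h1 := hC.DL J' j i _ l _ (hJ hj) (hL.smulL J' _ _ l r b hr (hL.monoL _ _ _ _ hJ hb))
    have e : w' + (w + F.wt j i) - F.wt j i = w + w' := by abel
    rw [e] at h1
    exact h1
  | step j i w l P hj _ ih =>
    have h1 := hC.DL J' j i _ l _ (hJ hj) ih
    have e : w + F.wt j i + w' - F.wt j i = w + w' := by abel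
    rw [e] at h1
    exact h1

theorem L_apply (hL : F.AxL) (hC : F.AxC) {J J' : Finset I} (hJ : J ⊆ J') {w w' : Γ} {m : ℕ}
    {P : A →ₗ[ℤ_[p]] B} (h : P ∈ F.L J w m) {r : A} (hr : r ∈ F.Ar J' w') :
    P r ∈ F.Bl J' (w + w') m := by
  induction h using Submodule.span_induction with
  | mem P hP =>
    obtain ⟨l, hl, h⟩ := hP
    exact hL.lev _ _ _ _ hl (word_apply hL hC hJ h hr)
  | zero => exact Submodule.zero_mem _
  | add _ _ _ _ h1 h2 => exact Submodule.add_mem _ h1 h2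
  | smul c _ _ h1 => exact Submodule.smul_mem _ c h1

theorem L_one (hL : F.AxL) (hC : F.AxC) {J : Finset I} {w : Γ} {m : ℕ}
    {P : A →ₗ[ℤ_[p]] B} (h : P ∈ F.L J w m) : P 1 ∈ F.Bl J w m := by
  have := L_apply hL hC (Finset.Subset.refl J) h (hL.one J)
  rwa [add_zero] at this

theorem D_comp {J : Finset I} {w : Γ} {m : ℕ} {j : I} {i : σ j} {P : A →ₗ[ℤ_[p]] B} (hj : j ∈ J)
    (h : P ∈ F.L J (w + F.wt j i) m) : F.D j i ∘ₗ P ∈ F.L J w (m + 1) := by
  induction h using Submodule.span_induction with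
  | mem P hP =>
    obtain ⟨l, hl, h⟩ := hP
    exact word_mem (Word.step j i w l P hj h) (by omega)
  | zero => rw [LinearMap.comp_zero]; exact Submodule.zero_mem _
  | add _ _ _ _ h1 h2 => rw [LinearMap.comp_add]; exact Submodule.add_mem _ h1 h2
  | smul c _ _ h1 => rw [LinearMap.comp_smul]; exact Submodule.smul_mem _ c h1

theorem word_th (hL : F.AxL) (hC : F.AxC) {J : Finset I} {w : Γ} {l : ℕ} (s : ι)
    {P : A →ₗ[ℤ_[p]] B} (h : F.Word J w l P) :
    F.Word J w (l + 1) ((F.th s).restrictScalars ℤ_[p] ∘ₗ P) := by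
  induction h with
  | base j i w l b hj hb =>
    have e : (F.th s).restrictScalars ℤ_[p] ∘ₗ (F.D j i ∘ₗ mOp ℤ_[p] A b) =
        F.D j i ∘ₗ mOp ℤ_[p] A (F.th s b) := by
      ext r
      simp only [LinearMap.comp_apply, mOp_apply, LinearMap.restrictScalars_apply]
      rw [← hC.Dth, map_smul]
    rw [e]
    exact Word.base j i w (l + 1) _ hj (hL.thL s J _ l b hb)
  | step j i w l P hj _ ih =>
    have e : (F.th s).restrictScalars ℤ_[p] ∘ₗ (F.D j i ∘ₗ P) =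
        F.D j i ∘ₗ ((F.th s).restrictScalars ℤ_[p] ∘ₗ P) := by
      ext r
      simp only [LinearMap.comp_apply, LinearMap.restrictScalars_apply]
      rw [← hC.Dth]
    rw [e]
    exact Word.step j i w (l + 1) _ hj ih

theorem th_comp (hL : F.AxL) (hC : F.AxC) {J : Finset I} {w : Γ} {m : ℕ} (s : ι)
    {P : A →ₗ[ℤ_[p]] B} (h : P ∈ F.L J w m) :
    (F.th s).restrictScalars ℤ_[p] ∘ₗ P ∈ F.L J w (m + 1) := by
  induction h using Submodule.span_induction with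
  | mem P hP =>
    obtain ⟨l, hl, h⟩ := hP
    exact word_mem (word_th hL hC s h) (by omega)
  | zero => rw [LinearMap.comp_zero]; exact Submodule.zero_mem _
  | add _ _ _ _ h1 h2 => rw [LinearMap.comp_add]; exact Submodule.add_mem _ h1 h2
  | smul c _ _ h1 => rw [LinearMap.comp_smul]; exact Submodule.smul_mem _ c h1

theorem mulL_D (hC : F.AxC) (j : I) (i : σ j) (a : A) (P : A →ₗ[ℤ_[p]] B) :
    mulL ℤ_[p] B a ∘ₗ (F.D j i ∘ₗ P) =
      F.D j i ∘ₗ (mulL ℤ_[p] B a ∘ₗ P) - mulL ℤ_[p] B (F.d j i a) ∘ₗ P := by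
  ext r
  simp only [LinearMap.comp_apply, LinearMap.sub_apply, mulL_apply]
  rw [hC.Dsmul]
  abel

theorem word_mul (hL : F.AxL) (hC : F.AxC) {J : Finset I} {w : Γ} {l : ℕ}
    {P : A →ₗ[ℤ_[p]] B} (h : F.Word J w l P) : ∀ (w' : Γ) (a : A), a ∈ F.Ar J w' →
      ∃ b ∈ F.Bl J (w + w') l, mulL ℤ_[p] B a ∘ₗ P - mOp ℤ_[p] A b ∈ F.L J (w + w') l := by
  induction h with
  | base j i w l b hj hb =>
    intro w' a ha
    have h1 := hL.smulL J _ _ l _ b (hC.dmem J j i w' a hj ha) hb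
    have e1 : w' - F.wt j i + (w + F.wt j i) = w + w' := by abel
    rw [e1] at h1
    have h2 := hL.smulL J _ _ l _ b ha hb
    have e2 : w' + (w + F.wt j i) = w + w' + F.wt j i := by abel
    rw [e2] at h2
    refine ⟨-(F.d j i a • b), Submodule.neg_mem _ (hL.lev _ _ _ _ (Nat.le_succ l) h1), ?_⟩
    rw [mulL_D hC, mulL_mOp, mulL_mOp, mOp_neg, sub_neg_eq_add, sub_add_cancel]
    exact word_mem (Word.base j i _ l _ hj h2) le_rfl
  | step j i w l P hj _ ih =>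
    intro w' a ha
    obtain ⟨b1, hb1, h1⟩ := ih w' a ha
    obtain ⟨b2, hb2, h2⟩ := ih _ _ (hC.dmem J j i w' a hj ha)
    have e1 : w + F.wt j i + w' = w + w' + F.wt j i := by abel
    have e2 : w + F.wt j i + (w' - F.wt j i) = w + w' := by abel
    rw [e1] at hb1 h1
    rw [e2] at hb2 h2
    refine ⟨-b2, Submodule.neg_mem _ (hL.lev _ _ _ _ (Nat.le_succ l) hb2), ?_⟩
    have e : mulL ℤ_[p] B a ∘ₗ (F.D j i ∘ₗ P) - mOp ℤ_[p] A (-b2) =
        F.D j i ∘ₗ (mulL ℤ_[p] B a ∘ₗ P - mOp ℤ_[p] A b1) + F.D j i ∘ₗ mOp ℤ_[p] A b1 -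
          (mulL ℤ_[p] B (F.d j i a) ∘ₗ P - mOp ℤ_[p] A b2) := by
      rw [mulL_D hC, mOp_neg, LinearMap.comp_sub]
      abel
    rw [e]
    exact Submodule.sub_mem _ (Submodule.add_mem _ (D_comp hj h1)
      (word_mem (Word.base j i _ l _ hj hb1) le_rfl))
      (L_mono hL (Finset.Subset.refl J) (Nat.le_succ l) h2)

theorem mul_comp (hL : F.AxL) (hC : F.AxC) {J : Finset I} {w w' : Γ} {m : ℕ} {a : A}
    {P : A →ₗ[ℤ_[p]] B} (ha : a ∈ F.Ar J w') (h : P ∈ F.L J w m) :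
    ∃ b ∈ F.Bl J (w + w') m, mulL ℤ_[p] B a ∘ₗ P - mOp ℤ_[p] A b ∈ F.L J (w + w') m := by
  induction h using Submodule.span_induction with
  | mem P hP =>
    obtain ⟨l, hl, h⟩ := hP
    obtain ⟨b, hb, h1⟩ := word_mul hL hC h w' a ha
    exact ⟨b, hL.lev _ _ _ _ hl hb, L_mono hL (Finset.Subset.refl J) hl h1⟩
  | zero =>
    refine ⟨0, Submodule.zero_mem _, ?_⟩
    rw [LinearMap.comp_zero, mOp_zero, sub_zero]
    exact Submodule.zero_mem _
  | add P Q _ _ h1 h2 =>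
    obtain ⟨b1, hb1, h1⟩ := h1
    obtain ⟨b2, hb2, h2⟩ := h2
    refine ⟨b1 + b2, Submodule.add_mem _ hb1 hb2, ?_⟩
    have e : mulL ℤ_[p] B a ∘ₗ (P + Q) - mOp ℤ_[p] A (b1 + b2) =
        (mulL ℤ_[p] B a ∘ₗ P - mOp ℤ_[p] A b1) + (mulL ℤ_[p] B a ∘ₗ Q - mOp ℤ_[p] A b2) := by
      rw [LinearMap.comp_add, mOp_add]
      abel
    rw [e]
    exact Submodule.add_mem _ h1 h2
  | smul c P _ h1 =>
    obtain ⟨b1, hb1, h1⟩ := h1
    refine ⟨c • b1, Submodule.smul_mem _ c hb1, ?_⟩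
    rw [LinearMap.comp_smul, mOp_smul, ← smul_sub]
    exact Submodule.smul_mem _ c h1

theorem Dn_add (hC : F.AxC) (j : I) (n n' : σ j → ℕ) :
    F.Dn j (n + n') = F.Dn j n ∘ₗ F.Dn j n' :=
  list_pow_add (F.D j) (fun i l => LinearMap.ext fun b => hC.Dcomm j i l b) n n' _

theorem Dn_single (j : I) (i : σ j) : F.Dn j (Pi.single i 1) = F.D j i := by
  unfold FrameData.Dn
  rw [List.prod_map_eq_pow_single i, List.count_eq_one_of_mem (Finset.nodup_toList _)
    (Finset.mem_toList.2 (Finset.mem_univ i)), Pi.single_eq_same, pow_one, pow_one]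
  intro l hl _
  rw [Pi.single_eq_of_ne hl, pow_zero]

theorem wn_add (j : I) (n n' : σ j → ℕ) : F.wn j (n + n') = F.wn j n + F.wn j n' := by
  simp [FrameData.wn, add_smul, Finset.sum_add_distrib]

theorem wn_single (j : I) (i : σ j) : F.wn j (Pi.single i 1) = F.wt j i := by
  unfold FrameData.wn
  rw [Finset.sum_eq_single i, Pi.single_eq_same, one_smul]
  · intro l _ hl
    rw [Pi.single_eq_of_ne hl, zero_smul]
  · intro h
    exact absurd (Finset.mem_univ i) h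

theorem mem_idx {j : I} {m : ℕ} {n : σ j → ℕ} :
    n ∈ idx σ j m ↔ 1 ≤ ∑ i, n i ∧ ∑ i, n i ≤ m := by
  unfold idx
  rw [Finset.mem_filter, Fintype.mem_piFinset]
  refine ⟨fun h => h.2, fun h => ⟨fun i => ?_, h⟩⟩
  have : n i ≤ ∑ i, n i := Finset.single_le_sum (fun _ _ => Nat.zero_le _) (Finset.mem_univ i)
  rw [Finset.mem_range]
  omega

theorem sum_single_add {κ : Type} [Fintype κ] [DecidableEq κ] (i : κ) (n : κ → ℕ) :
    ∑ l, (Pi.single i 1 + n : κ → ℕ) l = ∑ l, n l + 1 := by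
  simp [Finset.sum_add_distrib, add_comm]

theorem word_Dn (hC : F.AxC) {J : Finset I} {j : I} (hj : j ∈ J) (l : ℕ) (b : B) :
    ∀ (k : ℕ) (n : σ j → ℕ) (w : Γ), ∑ i, n i = k + 1 → b ∈ F.Bl J (w + F.wn j n) l →
      F.Word J w (l + k + 1) (F.Dn j n ∘ₗ mOp ℤ_[p] A b) := by
  have key : ∀ (k : ℕ) (n : σ j → ℕ), ∑ i, n i = k + 1 →
      ∃ (i : σ j) (n' : σ j → ℕ), n = Pi.single i 1 + n' ∧ ∑ i, n' i = k := by
    intro k n hn
    obtain ⟨i, -, hi⟩ := Finset.exists_ne_zero_of_sum_ne_zero (s := Finset.univ) (f := n)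
      (by omega)
    have e : n = Pi.single i 1 + (n - Pi.single i 1) := by
      funext l
      by_cases h : l = i
      · subst h
        simp only [Pi.add_apply, Pi.sub_apply, Pi.single_eq_same]
        omega
      · simp [Pi.single_eq_of_ne h]
    refine ⟨i, _, e, ?_⟩
    have := sum_single_add i (n - Pi.single i 1)
    rw [← e] at this
    omega
  intro k
  induction k with
  | zero =>
    intro n w hn hb
    obtain ⟨i, n', rfl, h0⟩ := key 0 n hn
    have : n' = 0 := funext fun l => (Finset.sum_eq_zero_iff.1 h0) l (Finset.mem_univ l)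
    subst this
    rw [add_zero] at hb ⊢
    rw [wn_single] at hb
    rw [add_zero, Dn_single]
    exact Word.base j i w l b hj hb
  | succ k ih =>
    intro n w hn hb
    obtain ⟨i, n', rfl, h0⟩ := key (k + 1) n hn
    rw [wn_add, wn_single, ← add_assoc] at hb
    rw [Dn_add hC, Dn_single, LinearMap.comp_assoc]
    exact Word.step j i w _ _ hj (ih n' _ h0 hb)

variable (F) in
/-- Operators in normal form for the chart `j`. -/
def NF (J : Finset I) (j : I) (w : Γ) (m : ℕ) : Submodule ℤ_[p] (A →ₗ[ℤ_[p]] B) where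
  carrier := {P | ∃ β : (σ j → ℕ) → B,
    (∀ n ∈ idx σ j m, β n ∈ F.Bl J (w + F.wn j n) (m - ∑ i, n i)) ∧
    P = ∑ n ∈ idx σ j m, F.Dn j n ∘ₗ mOp ℤ_[p] A (β n)}
  zero_mem' := ⟨0, fun _ _ => Submodule.zero_mem _, by simp [mOp_zero]⟩
  add_mem' := by
    rintro _ _ ⟨β, h, rfl⟩ ⟨β', h', rfl⟩
    refine ⟨β + β', fun n hn => Submodule.add_mem _ (h n hn) (h' n hn), ?_⟩
    simp only [Pi.add_apply, mOp_add, LinearMap.comp_add, Finset.sum_add_distrib]
  smul_mem' := by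
    rintro c _ ⟨β, h, rfl⟩
    refine ⟨c • β, fun n hn => Submodule.smul_mem _ c (h n hn), ?_⟩
    simp only [Pi.smul_apply, mOp_smul, LinearMap.comp_smul, Finset.smul_sum]

theorem NF_gen {J : Finset I} {j : I} {w : Γ} {m : ℕ} {n : σ j → ℕ} (hn : n ∈ idx σ j m) {b : B}
    (hb : b ∈ F.Bl J (w + F.wn j n) (m - ∑ i, n i)) :
    F.Dn j n ∘ₗ mOp ℤ_[p] A b ∈ NF F J j w m := by
  refine ⟨Pi.single n b, fun n' _ => ?_, ?_⟩
  · by_cases h : n' = n
    · subst h
      rwa [Pi.single_eq_same]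
    · rw [Pi.single_eq_of_ne h]
      exact Submodule.zero_mem _
  · rw [Finset.sum_eq_single n, Pi.single_eq_same]
    · intro n' _ h
      rw [Pi.single_eq_of_ne h, mOp_zero, LinearMap.comp_zero]
    · intro h
      exact absurd hn h

theorem NF_le (hC : F.AxC) {J : Finset I} {j : I} (hj : j ∈ J) (w : Γ) (m : ℕ) :
    NF F J j w m ≤ F.L J w m := by
  rintro _ ⟨β, h, rfl⟩
  refine Submodule.sum_mem _ fun n hn => ?_
  obtain ⟨h1, h2⟩ := mem_idx.1 hn
  exact word_mem (word_Dn hC hj _ _ (∑ i, n i - 1) n w (by omega) (h n hn)) (by omega)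

theorem D_NF (hC : F.AxC) {J : Finset I} {j : I} {i : σ j} {w : Γ} {m : ℕ} {P : A →ₗ[ℤ_[p]] B}
    (h : P ∈ NF F J j (w + F.wt j i) m) : F.D j i ∘ₗ P ∈ NF F J j w (m + 1) := by
  obtain ⟨β, h, rfl⟩ := h
  have e : F.D j i ∘ₗ ∑ n ∈ idx σ j m, F.Dn j n ∘ₗ mOp ℤ_[p] A (β n) =
      ∑ n ∈ idx σ j m, F.Dn j (Pi.single i 1 + n) ∘ₗ mOp ℤ_[p] A (β n) := by
    ext r
    simp only [LinearMap.comp_apply, LinearMap.sum_apply, map_sum, Dn_add hC, Dn_single]
  rw [e]
  refine Submodule.sum_mem _ fun n hn => NF_gen ?_ ?_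
  · obtain ⟨h1, h2⟩ := mem_idx.1 hn
    rw [mem_idx, sum_single_add]
    omega
  · rw [wn_add, wn_single, ← add_assoc, sum_single_add, Nat.add_sub_add_right]
    exact h n hn

theorem D_mOp_NF {J : Finset I} {j : I} {i : σ j} {w : Γ} {m : ℕ} {b : B}
    (hb : b ∈ F.Bl J (w + F.wt j i) m) : F.D j i ∘ₗ mOp ℤ_[p] A b ∈ NF F J j w (m + 1) := by
  rw [← Dn_single]
  have hs : ∑ l, (Pi.single i 1 : σ j → ℕ) l = 1 := by simp
  apply NF_gen
  · rw [mem_idx, hs]
    omega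
  · rwa [wn_single, hs, Nat.add_sub_cancel]

theorem L_le_NF (hL : F.AxL) (hC : F.AxC) (hT : F.AxT) {J : Finset I} {j : I} (hj : j ∈ J) :
    ∀ (m : ℕ) (w : Γ), F.L J w m ≤ NF F J j w m := by
  intro m
  induction m with
  | zero => intro w; rw [L_zero]; exact bot_le
  | succ m ih =>
    intro w
    have key : ∀ (k : I) (i : σ k) (Q : A →ₗ[ℤ_[p]] B), k ∈ J →
        (∀ w' a, a ∈ F.Ar J w' → ∃ b ∈ F.Bl J (w + F.wt k i + w') m,
          mulL ℤ_[p] B a ∘ₗ Q - mOp ℤ_[p] A b ∈ F.L J (w + F.wt k i + w') m) →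
        F.D k i ∘ₗ Q ∈ NF F J j w (m + 1) := by
      intro k i Q hk hQ
      obtain ⟨r, hr, -, hD⟩ := hT.trans j k i
      have e : F.D k i ∘ₗ Q = ∑ l, F.D j l ∘ₗ (mulL ℤ_[p] B (r l) ∘ₗ Q) := by
        ext a
        simp only [LinearMap.comp_apply, LinearMap.sum_apply, mulL_apply]
        exact hD _
      rw [e]
      refine Submodule.sum_mem _ fun l _ => ?_
      have hsub : ({j, k} : Finset I) ⊆ J := by
        intro y hy
        rcases Finset.mem_insert.1 hy with rfl | hy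
        · exact hj
        · rwa [Finset.mem_singleton.1 hy]
      obtain ⟨b, hb, h1⟩ := hQ _ _ (hL.monoA _ _ _ hsub (hr l))
      have e1 : w + F.wt k i + (F.wt j l - F.wt k i) = w + F.wt j l := by abel
      rw [e1] at hb h1
      have e2 : F.D j l ∘ₗ (mulL ℤ_[p] B (r l) ∘ₗ Q) =
          F.D j l ∘ₗ (mulL ℤ_[p] B (r l) ∘ₗ Q - mOp ℤ_[p] A b) + F.D j l ∘ₗ mOp ℤ_[p] A b := by
        rw [LinearMap.comp_sub, sub_add_cancel]
      rw [e2]
      exact Submodule.add_mem _ (D_NF hC (ih _ h1)) (D_mOp_NF hb)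
    refine Submodule.span_le.2 ?_
    rintro P ⟨l, hl, h⟩
    cases h with
    | base k i _ l b hk hb =>
      refine key k i _ hk fun w' a ha => ⟨a • b, ?_, ?_⟩
      · have := hL.smulL J _ _ l a b ha hb
        rw [add_comm] at this
        exact hL.lev _ _ _ _ (by omega) this
      · rw [mulL_mOp, sub_self]
        exact Submodule.zero_mem _
    | step k i _ l Q hk hQ =>
      exact key k i _ hk fun w' a ha => mul_comp hL hC ha (word_mem hQ (by omega))

theorem X_le (hL : F.AxL) (hC : F.AxC) (J : Finset I) (m : ℕ) : F.X J m ≤ F.Lt J m := by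
  refine Submodule.span_le.2 ?_
  rintro z (⟨j, hj, i, l, h1, h2, P, hP, rfl⟩ | ⟨i, l, h1, h2, P, hP, rfl⟩)
  · refine Submodule.mem_prod.2 ⟨?_, Submodule.zero_mem _⟩
    have hb := L_one hL hC hP
    rw [← zero_add (F.wt j i)] at hP hb
    show F.D j i ∘ₗ (P - mOp ℤ_[p] A (P 1)) ∈ F.L J 0 m
    rw [LinearMap.comp_sub]
    exact Submodule.sub_mem _ (L_mono hL (Finset.Subset.refl J) h2 (D_comp hj hP))
      (word_mem (Word.base j i 0 l _ hj hb) h2)
  · refine Submodule.mem_prod.2 ⟨Submodule.neg_mem _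
      (L_mono hL (Finset.Subset.refl J) h2 (th_comp hL hC i hP)), fun s _ => ?_⟩
    rw [if_neg (by omega)]
    show (Pi.single i (P 1) : ι → B) s ∈ F.Bl J 0 (m - 1)
    by_cases h : s = i
    · subst h
      rw [Pi.single_eq_same]
      exact hL.lev _ _ _ _ (by omega) (L_one hL hC hP)
    · rw [Pi.single_eq_of_ne h]
      exact Submodule.zero_mem _

theorem X_ker (J : Finset I) (m : ℕ) : F.X J m ≤ LinearMap.ker F.dLt := by
  refine Submodule.span_le.2 ?_
  rintro z (⟨j, hj, i, l, h1, h2, P, hP, rfl⟩ | ⟨i, l, h1, h2, P, hP, rfl⟩)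
  · show F.D j i (P 1 - (1 : A) • P 1) + ∑ s, F.th s 0 = 0
    simp
  · show -(F.th i (P 1)) + ∑ s, F.th s ((Pi.single i (P 1) : ι → B) s) = 0
    rw [Finset.sum_eq_single i, Pi.single_eq_same, neg_add_cancel]
    · intro s _ h
      rw [Pi.single_eq_of_ne h, map_zero]
    · intro h
      exact absurd (Finset.mem_univ i) h

theorem X_mono (hL : F.AxL) {J J' : Finset I} {m m' : ℕ} (hJ : J ⊆ J') (hm : m ≤ m') :
    F.X J m ≤ F.X J' m' := by
  refine Submodule.span_mono ?_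
  rintro z (⟨j, hj, i, l, h1, h2, P, hP, rfl⟩ | ⟨i, l, h1, h2, P, hP, rfl⟩)
  · exact Or.inl ⟨j, hJ hj, i, l, h1, h2.trans hm, P, L_mono hL hJ le_rfl hP, rfl⟩
  · exact Or.inr ⟨i, l, h1, h2.trans hm, P, L_mono hL hJ le_rfl hP, rfl⟩

theorem X_one (J : Finset I) : F.X J 1 = ⊥ := by
  rw [FrameData.X, Submodule.span_eq_bot]
  rintro z (⟨j, hj, i, l, h1, h2, -⟩ | ⟨i, l, h1, h2, -⟩) <;> omega

theorem rowF1 : RowF1 := by
  intro p _ A B Γ I ι σ _ _ _ _ _ _ _ _ _ _ _ _ _ F hL hC hT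
  exact ⟨fun _ _ _ _ _ hJ hm => L_mono hL hJ hm, L_zero,
    fun _ _ _ _ _ _ _ hJ h hr => L_apply hL hC hJ h hr,
    fun _ _ _ _ _ _ hj h => D_comp hj h,
    fun _ _ _ s _ h => th_comp hL hC s h,
    fun _ _ _ _ _ _ ha h => mul_comp hL hC ha h,
    fun _ w m _ _ hj => ⟨fun h => L_le_NF hL hC hT hj m w h, fun h => NF_le hC hj w m h⟩,
    X_le hL hC, fun J m _ hz => X_ker J m hz,
    fun _ _ _ _ hJ hm => X_mono hL hJ hm, X_one⟩

end

end Pool.Agent.MP_ea150c_mp.H29
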