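import Pool.Agent.MP_ea150c_mp.H49.SpecG

/-! From the residue field to congruences modulo `p`. -/

namespace Pool.Agent.MP_ea150c_mp.H29

open Pool.Agent.MP_ea150c_mp.H49

noncomputable section

theorem cb_abstract {O k A A' I : Type} [CommRing O] [CommRing k] [CommRing A] [CommRing A']
    [Algebra O A] [Algebra k A'] [LinearOrder I] (π : O) (red : A →+* A')
    (N : Finset I → Submodule O A) (N' : Finset I → Submodule k A')
    (mono : ∀ J J', J ⊆ J' → N J ≤ N J')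
    (hπ : ∀ a, red (π • a) = 0)
    (hmap : ∀ J, ∀ a ∈ N J, red a ∈ N' J)
    (hsurj : ∀ J : Finset I, J.Nonempty → ∀ b ∈ N' J, ∃ a ∈ N J, red a = b)
    (hker : ∀ J, ∀ a ∈ N J, red a = 0 → a ∈ sm π (N J))
    (x e : Finset I → A) (hx : x ∈ Coch N) (hd : dl O A x ∈ sm π (Coch N)) :
    (fun J => red (x J)) ∈ Coch N' ∧ dl k A' (fun J => red (x J)) = 0 ∧
    (e ∈ Coch N → ∀ z' ∈ Coch N', (fun J => red (x J)) = (fun J => red (e J)) + dl k A' z' →
      ∃ z ∈ Coch N, x - e - dl O A z ∈ sm π (Coch N)) := by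
  have hdl : ∀ (y : Finset I → A) (J : Finset I),
      red (dl O A y J) = dl k A' (fun J => red (y J)) J := by
    intro y J
    show red (∑ j ∈ J, ((-1 : O) ^ (J.filter (· < j)).card) • y (J.erase j)) =
      ∑ j ∈ J, ((-1 : k) ^ (J.filter (· < j)).card) • red (y (J.erase j))
    rw [map_sum]
    refine Finset.sum_congr rfl fun j _ => ?_
    simp [Algebra.smul_def]
  refine ⟨⟨by simp [hx.1], fun J => hmap J _ (hx.2 J)⟩, ?_, ?_⟩
  · funext J
    obtain ⟨y, -, hy⟩ := hd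
    rw [← hdl, ← hy]
    exact hπ _
  · intro he z' hz' hxz
    have hl : ∀ J : Finset I, ∃ a ∈ N J, red a = z' J ∧ (J = ∅ → a = 0) := by
      intro J
      rcases J.eq_empty_or_nonempty with rfl | hJ
      · exact ⟨0, Submodule.zero_mem _, by rw [map_zero, hz'.1], fun _ => rfl⟩
      · obtain ⟨a, ha, h⟩ := hsurj J hJ _ (hz'.2 J)
        exact ⟨a, ha, h, fun h0 => absurd h0 hJ.ne_empty⟩
    choose z hz1 hz2 hz3 using hl
    have hdz : dl O A z ∈ Coch N := by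
      refine ⟨by simp [dl], fun J => ?_⟩
      show ∑ j ∈ J, ((-1 : O) ^ (J.filter (· < j)).card) • z (J.erase j) ∈ N J
      exact Submodule.sum_mem _ fun j _ =>
        Submodule.smul_mem _ _ (mono _ _ (Finset.erase_subset j J) (hz1 _))
    have hv : x - e - dl O A z ∈ Coch N := Submodule.sub_mem _ (Submodule.sub_mem _ hx he) hdz
    refine ⟨z, ⟨hz3 ∅ rfl, hz1⟩, ?_⟩
    have hk : ∀ J : Finset I, ∃ a ∈ N J, π • a = (x - e - dl O A z) J ∧ (J = ∅ → a = 0) := by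
      intro J
      rcases J.eq_empty_or_nonempty with rfl | hJ
      · exact ⟨0, Submodule.zero_mem _, by rw [smul_zero, hv.1], fun _ => rfl⟩
      · have h0 : red ((x - e - dl O A z) J) = 0 := by
          have h1 := congrFun hxz J
          have h2 : (fun J => red (z J)) = z' := funext hz2
          rw [Pi.sub_apply, Pi.sub_apply, map_sub, map_sub, hdl, h2]
          rw [Pi.add_apply] at h1
          rw [h1]
          ring
        obtain ⟨a, ha, h⟩ := hker J _ (hv.2 J) h0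
        exact ⟨a, ha, h, fun h0 => absurd h0 hJ.ne_empty⟩
    choose y hy1 hy2 hy3 using hk
    exact ⟨y, ⟨hy3 ∅ rfl, hy1⟩, funext hy2⟩

theorem cb (s1p : S1p) (g1 : G1) (cx : CX) (cc : CC) : CB := by
  intro I τ ι _ _ _ _ _ _ M hM p _ w
  obtain ⟨tf, -, -, hred, hlift, -⟩ := s1p p (Var I τ) torV
  have hsj : ∀ (j : I) (z : Zr ℤ_[p] I τ), tmap torV PadicInt.toZMod (sj ℤ_[p] τ j z) =
      sj (ZMod p) τ j (tmap torV PadicInt.toZMod z) := fun j z =>
    ((g1 I τ ι M hM ℤ_[p] j).2.2.2.2.2.2.2.2.1 (ZMod p) PadicInt.toZMod z).1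
  have hsA : ∀ (j : I) (J : Finset I) (z : Zr ℤ_[p] I τ), j ∈ J → z ∈ M.Zp ℤ_[p] J w →
      sA ℤ_[p] τ j z ∈ M.Ap ℤ_[p] J w := fun j J z hj hz =>
    (g1 I τ ι M hM ℤ_[p] j).2.2.1 J w z hj hz
  obtain ⟨-, -, -, -, -, -, -, -, -, -, hmul, hmono, -⟩ := cx I τ ι M hM ℤ_[p]
  obtain ⟨hcc, -, -, hcct⟩ := cc I τ ι M hM ℤ_[p]
  let red : Ainv ℤ_[p] I τ →+* Ainv (ZMod p) I τ :=
    ((tmap torV (PadicInt.toZMod (p := p))).comp (Ainv ℤ_[p] I τ).val.toRingHom).codRestrict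
      (Ainv (ZMod p) I τ) fun a => (mem_Ainv _ _).2 fun j => by
        show sj (ZMod p) τ j (tmap torV PadicInt.toZMod a.1) = tmap torV PadicInt.toZMod a.1
        rw [← hsj, (mem_Ainv _ _).1 a.2 j]
  have hv : ∀ a, (red a).1 = tmap torV PadicInt.toZMod a.1 := fun _ => rfl
  have hp : ∀ z : Zr ℤ_[p] I τ, (p : ℤ_[p]) • z = (p : Zr ℤ_[p] I τ) * z := fun z => by
    rw [Algebra.smul_def, map_natCast]
  have hred' : ∀ (J : Finset I), ∀ a ∈ M.Zp ℤ_[p] J w,
      tmap torV PadicInt.toZMod a ∈ M.Zp (ZMod p) J w ∧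
        (tmap torV PadicInt.toZMod a = 0 → a ∈ sm (p : ℤ_[p]) (M.Zp ℤ_[p] J w)) :=
    fun J => hred _
  have hlift' : ∀ (J : Finset I), ∀ b ∈ M.Zp (ZMod p) J w,
      ∃ a ∈ M.Zp ℤ_[p] J w, tmap torV PadicInt.toZMod a = b := fun J => hlift _
  have key := cb_abstract (k := ZMod p) (p : ℤ_[p]) red (fun J => M.Ap ℤ_[p] J w)
    (fun J => M.Ap (ZMod p) J w)
    (fun J J' h a ha => hmono J J' w h ha)
    (fun a => by
      rw [Algebra.smul_def, map_natCast, map_mul, map_natCast,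
        ← map_natCast (algebraMap (ZMod p) (Ainv (ZMod p) I τ)), ZMod.natCast_self, map_zero,
        zero_mul])
    (fun J a ha => (hred' J a.1 ha).1)
    (fun J hJ b hb => by
      obtain ⟨j, hj⟩ := hJ
      obtain ⟨z, hz, hzb⟩ := hlift' J b.1 hb
      refine ⟨sA ℤ_[p] τ j z, hsA j J z hj hz, Subtype.ext ?_⟩
      rw [hv]
      show tmap torV PadicInt.toZMod (sj ℤ_[p] τ j z) = b.1
      rw [hsj, hzb, (mem_Ainv _ _).1 b.2 j])
    (fun J a ha h0 => by
      obtain ⟨z, hz, hza⟩ := (hred' J a.1 ha).2 (by rw [← hv, h0]; rfl)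
      have hza' : (p : Zr ℤ_[p] I τ) * z = a.1 := by rw [← hp]; exact hza
      have hzi : z ∈ Ainv ℤ_[p] I τ := (mem_Ainv _ _).2 fun j => by
        have h1 := (mem_Ainv _ _).1 a.2 j
        rw [← hza', map_mul, map_natCast] at h1
        exact sub_eq_zero.1 (tf _ (by rw [mul_sub, h1, sub_self]))
      exact ⟨⟨z, hzi⟩, hz, Subtype.ext hza⟩)
  refine ⟨fun hoff x hx h3 hd => ?_, fun Inv Inv' hInv hl hex x hx hd => ?_⟩
  · obtain ⟨h1, h2, h4⟩ := key x 0 hx hd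
    obtain ⟨z', hz', he⟩ := hoff _ h1 (fun J hJ => by simp [h3 J hJ]) h2
    obtain ⟨z, hz, h5⟩ := h4 (Submodule.zero_mem _) z' hz' (by rw [he]; funext J; simp)
    exact ⟨z, hz, by rwa [sub_zero] at h5⟩
  · obtain ⟨h1, h2, -⟩ := key x 0 hx hd
    obtain ⟨h', hh', z', hz', he⟩ := hex _ h1 h2
    obtain ⟨h, hh, hhh⟩ := hl h' hh'
    obtain ⟨-, -, h4⟩ := key x (fun J => h * H49.cc ℤ_[p] τ J) hx hd
    refine ⟨h, hh, h4 ⟨by simp [H49.cc], fun J => ?_⟩ z' hz' ?_⟩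
    · have := hmul J _ _ _ _ (hmono ∅ J _ (Finset.empty_subset J) (hInv h hh)) (hcc J)
      rw [sub_add_cancel] at this
      exact this
    · rw [he]
      congr 1
      funext J
      apply Subtype.ext
      rw [hv]
      show h'.1 * (H49.cc (ZMod p) τ J).1 =
        tmap torV PadicInt.toZMod (h.1 * (H49.cc ℤ_[p] τ J).1)
      rw [map_mul, hhh, hcct]

end

end Pool.Agent.MP_ea150c_mp.H29
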