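import Pool.Agent.MP_ea150c_mp.H20.SpecM

/-! Power counting: convergence of the parametric integral forces a strict inequality. -/

namespace Pool.Agent.MP_ea150c_mp.H29

open MeasureTheory

/-- A dyadic box with corner `2 ^ (-(j * a e))`. -/
def box {ι : Type} (a : ι → ℤ) (j : ℕ) : Set (ι → ℝ) :=
  Set.pi Set.univ fun e => Set.Ico ((2 : ℝ) ^ (-((j : ℤ) * a e))) (2 * (2 : ℝ) ^ (-((j : ℤ) * a e)))

theorem box_meas {ι : Type} [Fintype ι] (a : ι → ℤ) (j : ℕ) : MeasurableSet (box a j) :=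
  MeasurableSet.univ_pi fun _ => measurableSet_Ico

theorem box_disj {ι : Type} (a : ι → ℤ) (e : ι) (he : a e ≠ 0) :
    Pairwise (Function.onFun Disjoint (box a)) := by
  intro i j hij
  rw [Function.onFun, Set.disjoint_left]
  intro x hi hj
  obtain ⟨h1, h2⟩ := hi e (Set.mem_univ _)
  obtain ⟨h3, h4⟩ := hj e (Set.mem_univ _)
  have k1 : (2 : ℝ) ^ (-((i : ℤ) * a e)) < 2 ^ (-((j : ℤ) * a e) + 1) := by
    rw [zpow_add_one₀ (by norm_num)]; linarith
  have k2 : (2 : ℝ) ^ (-((j : ℤ) * a e)) < 2 ^ (-((i : ℤ) * a e) + 1) := by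
    rw [zpow_add_one₀ (by norm_num)]; linarith
  rw [zpow_lt_zpow_iff_right₀ (by norm_num)] at k1 k2
  have : (i : ℤ) * a e = (j : ℤ) * a e := by omega
  have := mul_right_cancel₀ he this
  exact hij (by exact_mod_cast this)

theorem prod_two_zpow {κ : Type} (s : Finset κ) (f : κ → ℤ) :
    ∏ e ∈ s, (2 : ℝ) ^ f e = 2 ^ ∑ e ∈ s, f e := by
  classical
  induction s using Finset.induction_on with
  | empty => simp
  | insert x s hx ih => rw [Finset.prod_insert hx, Finset.sum_insert hx, ih, zpow_add₀ (by norm_num)]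

theorem box_vol {ι : Type} [Fintype ι] (a : ι → ℤ) (j : ℕ) :
    (volume : Measure (ι → ℝ)).real (box a j) = 2 ^ (-((j : ℤ) * ∑ e, a e)) := by
  unfold box
  rw [Measure.real, Real.volume_pi_Ico_toReal]
  · have : ∀ e, 2 * (2 : ℝ) ^ (-((j : ℤ) * a e)) - 2 ^ (-((j : ℤ) * a e)) =
        2 ^ (-((j : ℤ) * a e)) := fun e => by ring
    simp only [this]
    rw [prod_two_zpow, Finset.sum_neg_distrib, Finset.mul_sum]
  · intro e
    have : (0 : ℝ) < 2 ^ (-((j : ℤ) * a e)) := by positivity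
    show (2 : ℝ) ^ (-((j : ℤ) * a e)) ≤ 2 * 2 ^ (-((j : ℤ) * a e))
    linarith

theorem box_vol_ne {ι : Type} [Fintype ι] (a : ι → ℤ) (j : ℕ) :
    (volume : Measure (ι → ℝ)) (box a j) ≠ ⊤ := by
  unfold box
  rw [Real.volume_pi_Ico]
  exact ENNReal.prod_ne_top fun _ _ => ENNReal.ofReal_ne_top

theorem sQ1 : H20.SQ1 := by
  intro E _ _ 𝒯 e₀ hne hint a ha0 ha
  by_contra hcon
  push Not at hcon
  obtain ⟨e₁, he₁⟩ : ∃ e, a e ≠ 0 := by
    by_contra h
    push Not at h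
    exact ha (funext h)
  have he₁0 : e₁ ≠ e₀ := fun h => he₁ (h ▸ ha0)
  set b : {e : E // e ≠ e₀} → ℤ := fun e => a e.1 with hb
  set g : ({e : E // e ≠ e₀} → ℝ) → ℝ := fun α =>
    1 / (∑ T ∈ 𝒯, ∏ e ∈ Tᶜ, (if h : e = e₀ then 1 else α ⟨e, h⟩)) ^ 2 with hg
  have hsum : ∑ e, b e = ∑ e, a e := by
    rw [Fintype.sum_eq_add_sum_subtype_ne a e₀, ha0, zero_add]
  have hsub : ∀ j, box b j ⊆ {α | ∀ e, 0 ≤ α e} := by
    intro j x hx e
    have h1 := (hx e (Set.mem_univ _)).1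
    have : (0 : ℝ) < 2 ^ (-((j : ℤ) * b e)) := by positivity
    linarith
  have hU : IntegrableOn g (⋃ j, box b j) := hint.mono_set (Set.iUnion_subset hsub)
  have hs := (hasSum_integral_iUnion (box_meas b) (box_disj b ⟨e₁, he₁0⟩ he₁) hU).summable
  set C : ℝ := (𝒯.card : ℝ) ^ 2 * ((2 : ℝ) ^ Fintype.card E) ^ 2 with hC
  have hTc : (0 : ℝ) < 𝒯.card := by exact_mod_cast hne.card_pos
  have hCpos : 0 < C := by positivity
  have hlow : ∀ j : ℕ, 1 / C ≤ ∫ x in box b j, g x := by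
    intro j
    set Vj : ℝ := 2 ^ (-((j : ℤ) * ∑ e, a e)) with hV
    have hVpos : 0 < Vj := by positivity
    have hpt : ∀ x ∈ box b j, 1 / (C * Vj) ≤ g x := by
      intro x hx
      set y : E → ℝ := fun e => if h : e = e₀ then 1 else x ⟨e, h⟩ with hy
      have hy1 : ∀ e, 0 < y e ∧ y e ≤ 2 * 2 ^ (-((j : ℤ) * a e)) := by
        intro e
        by_cases h : e = e₀
        · simp only [hy, dif_pos h]
          rw [h, ha0]
          norm_num
        · simp only [hy, dif_neg h]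
          obtain ⟨h1, h2⟩ := hx ⟨e, h⟩ (Set.mem_univ _)
          have : (0 : ℝ) < 2 ^ (-((j : ℤ) * b ⟨e, h⟩)) := by positivity
          exact ⟨by linarith, h2.le⟩
      have hterm : ∀ T ∈ 𝒯, (∏ e ∈ Tᶜ, y e) ^ 2 ≤ ((2 : ℝ) ^ Fintype.card E) ^ 2 * Vj := by
        intro T hT
        have h1 : ∏ e ∈ Tᶜ, y e ≤ ∏ e ∈ Tᶜ, (2 * (2 : ℝ) ^ (-((j : ℤ) * a e))) :=
          Finset.prod_le_prod (fun e _ => (hy1 e).1.le) fun e _ => (hy1 e).2
        rw [Finset.prod_mul_distrib, Finset.prod_const, prod_two_zpow, Finset.sum_neg_distrib,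
          ← Finset.mul_sum] at h1
        have h0 : 0 ≤ ∏ e ∈ Tᶜ, y e := Finset.prod_nonneg fun e _ => (hy1 e).1.le
        have h2 : (2 : ℝ) ^ (Tᶜ).card ≤ 2 ^ Fintype.card E :=
          pow_le_pow_right₀ (by norm_num) (Finset.card_le_univ _)
        have h3 : ((2 : ℝ) ^ (-((j : ℤ) * ∑ e ∈ Tᶜ, a e))) ^ 2 ≤ Vj := by
          rw [sq, ← zpow_add₀ (by norm_num), hV]
          apply zpow_le_zpow_right₀ (by norm_num)
          have := hcon T hT
          have hj : (0 : ℤ) ≤ j := by positivity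
          nlinarith
        have h4 : (0 : ℝ) < 2 ^ (-((j : ℤ) * ∑ e ∈ Tᶜ, a e)) := by positivity
        calc (∏ e ∈ Tᶜ, y e) ^ 2
            ≤ ((2 : ℝ) ^ Fintype.card E * 2 ^ (-((j : ℤ) * ∑ e ∈ Tᶜ, a e))) ^ 2 := by
              apply pow_le_pow_left₀ h0
              exact h1.trans (mul_le_mul_of_nonneg_right h2 h4.le)
          _ = ((2 : ℝ) ^ Fintype.card E) ^ 2 * (2 ^ (-((j : ℤ) * ∑ e ∈ Tᶜ, a e))) ^ 2 := by ring
          _ ≤ _ := mul_le_mul_of_nonneg_left h3 (by positivity)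
      have hpos : 0 < ∑ T ∈ 𝒯, ∏ e ∈ Tᶜ, y e :=
        Finset.sum_pos (fun T _ => Finset.prod_pos fun e _ => (hy1 e).1) hne
      have hsq : (∑ T ∈ 𝒯, ∏ e ∈ Tᶜ, y e) ^ 2 ≤ C * Vj := by
        calc (∑ T ∈ 𝒯, ∏ e ∈ Tᶜ, y e) ^ 2 ≤ 𝒯.card * ∑ T ∈ 𝒯, (∏ e ∈ Tᶜ, y e) ^ 2 :=
              sq_sum_le_card_mul_sum_sq
          _ ≤ 𝒯.card * ∑ _T ∈ 𝒯, ((2 : ℝ) ^ Fintype.card E) ^ 2 * Vj :=
              mul_le_mul_of_nonneg_left (Finset.sum_le_sum hterm) hTc.le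
          _ = C * Vj := by rw [Finset.sum_const, nsmul_eq_mul, hC]; ring
      exact one_div_le_one_div_of_le (by positivity) hsq
    have h1 := setIntegral_ge_of_const_le_real (box_meas b j) (box_vol_ne b j) hpt
      (hint.mono_set (hsub j))
    rw [box_vol, hsum, ← hV] at h1
    calc 1 / C = 1 / (C * Vj) * Vj := by field_simp
      _ ≤ _ := h1
  have h0 := ge_of_tendsto' hs.tendsto_atTop_zero hlow
  have : 0 < 1 / C := by positivity
  linarith

end Pool.Agent.MP_ea150c_mp.H29
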